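import Pool.Agent.W815.RGC.CExp
import Pool.Agent.W815.RGC.CCnt2
import Pool.Agent.W815.RGC.COrth
import Pool.Agent.W815.RGC.CDia
import Pool.Agent.W815.RGC.CFin

set_option autoImplicit false

/-!
# The Good-Churchhouse asymptotics for `μχ`, almost all Dirichlet characters `χ` modulo `q`

For every modulus `q ≥ X^ε H^2` (so `q` may be a small power of `X`), all but `C X^(-δ) φ(q)`
Dirichlet characters `χ` modulo `q` satisfy
`(1/X) ∫_X^{2X} |∑_{|n-x|<H/2} μ(n) χ(n)|^2 dx = (H/X) #{X < n ≤ 2X squarefree, (n,q) = 1} + O(X^(-δ) H)`.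
-/

namespace Pool.Agent.Results.MP_0575cc_nt.AlmostAllCharacters

open MeasureTheory

/-- the variance in short intervals of `μχ` -/
noncomputable def V {q : ℕ} (χ : DirichletCharacter ℂ q) (X H : ℝ) : ℝ :=
  (1 / X) * ∫ x in X..2 * X,
    ‖∑ n ∈ (Finset.range (⌈x + H⌉₊ + 1)).filter (fun n : ℕ => |(n : ℝ) - x| < H / 2),
      ((ArithmeticFunction.moebius n : ℤ) : ℂ) * χ (n : ZMod q)‖ ^ 2

/-- the number of squarefree integers prime to `q` in `(X, 2X]` -/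
noncomputable def Q (q : ℕ) (X : ℝ) : ℝ :=
  open Classical in
  (((Finset.Ioc ⌊X⌋₊ ⌊2 * X⌋₊).filter (fun n => Squarefree n ∧ n.Coprime q)).card : ℝ)

theorem result (ε : ℝ) (h0 : 0 < ε) (h1 : ε < 1) : ∃ δ C : ℝ, 0 < δ ∧ 0 < C ∧
    ∀ (q : ℕ) (X H : ℝ), 1 ≤ X → 1 ≤ H → H ≤ X ^ (1 - ε) → X ^ ε * H ^ 2 ≤ q →
      (Set.ncard {χ : DirichletCharacter ℂ q | X ^ (-δ) * H < |V χ X H - H * Q q X / X|} : ℝ) ≤
        C * X ^ (-δ) * q.totient := by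
  obtain ⟨δ, C, hδ, hC, h⟩ := Pool.Agent.W815.RGD.finC Pool.Agent.W815.RGD.expn
    Pool.Agent.W815.RGD.cntC Pool.Agent.W815.RGD.orth Pool.Agent.W815.RGD.dia ε h0 h1
  refine ⟨δ, C, hδ, hC, fun q X H hX hH hHX hq => ?_⟩
  have hq0 : q ≠ 0 := by
    rintro rfl
    have h2 : (1 : ℝ) ≤ X ^ ε := Real.one_le_rpow hX h0.le
    have h3 : (1 : ℝ) ≤ H ^ 2 := one_le_pow₀ hH
    have h4 : (1 : ℝ) * 1 ≤ X ^ ε * H ^ 2 := mul_le_mul h2 h3 zero_le_one (by linarith)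
    push_cast at hq
    linarith
  exact h q ⟨hq0⟩ X H hX hH hHX hq

end Pool.Agent.Results.MP_0575cc_nt.AlmostAllCharacters
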