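import Pool.Agent.W815.RGC.Cnt
import Pool.Agent.W815.RGC.Sec
import Pool.Agent.W815.RGC.Ldg
import Pool.Agent.W815.RGC.Mom
import Pool.Agent.W815.RGC.Deg
import Pool.Agent.W815.RGC.Fin
import Pool.Agent.W815.RGC.Law
import Pool.Agent.W815.RGC.Bc
import Pool.Agent.W815.RGC.Sqf
import Pool.Agent.W815.RGC.Diag
import Pool.Agent.W815.RGC.Det
import Pool.Agent.W815.RGC.Asy

set_option autoImplicit false

/-!
# The Good-Churchhouse asymptotics for almost every random multiplicative function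

`f_s(n) = ∏_{p ∣ n} s_p` for squarefree `n` and `f_s(n) = 0` otherwise (`f_s = μ` if all `s_p = -1`).
For independent random signs `s_p`, almost surely the variance in short intervals is
`(H / ζ(2)) (1 + O(X^(-δ)))` uniformly for `1 ≤ H ≤ X^(1-ε)`, for every `ε > 0`.
-/

namespace Pool.Agent.Results.MP_0575cc_nt.RandomMultiplicative

open MeasureTheory

/-- the multiplicative function supported on the squarefree integers with values `s p` at primes -/
noncomputable def f (s : ℕ → ℤˣ) (n : ℕ) : ℝ :=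
  open Classical in if Squarefree n then ∏ p ∈ n.primeFactors, ((s p : ℤ) : ℝ) else 0

/-- the variance in short intervals `V(X;H)` of the problem, with `g` in place of `μ` -/
noncomputable def V (g : ℕ → ℝ) (X H : ℝ) : ℝ :=
  (1 / X) * ∫ x in X..2 * X,
    (∑ n ∈ (Finset.range (⌈x + H⌉₊ + 1)).filter (fun n : ℕ => |(n : ℝ) - x| < H / 2), g n) ^ 2

theorem result {Ω : Type} [MeasurableSpace Ω] (μ : Measure Ω) [IsProbabilityMeasure μ]
    (e : ℕ → Ω → ℤˣ) (meas : ∀ p, Measurable (e p)) (ind : ProbabilityTheory.iIndepFun e μ)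
    (half : ∀ p, μ (e p ⁻¹' {1}) = 1 / 2) :
    ∀ᵐ ω ∂μ, ∀ ε : ℝ, 0 < ε → ε < 1 → ∃ δ X₀ : ℝ, 0 < δ ∧ ∀ X H : ℝ, X₀ ≤ X → 1 ≤ H →
      H ≤ X ^ (1 - ε) →
        |V (f (fun p => e p ω)) X H / (H / (Real.pi ^ 2 / 6)) - 1| ≤ X ^ (-δ) := by
  have hF : Pool.Agent.W815.RGC.SFin := Pool.Agent.W815.RGC.fin Pool.Agent.W815.RGC.cnt
    Pool.Agent.W815.RGC.sec Pool.Agent.W815.RGC.ldg Pool.Agent.W815.RGC.tail
    Pool.Agent.W815.RGC.deg
  filter_upwards [Pool.Agent.W815.RGC.bc hF Pool.Agent.W815.RGC.law Ω _ μ inferInstance e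
    ⟨meas, ind, half⟩] with ω hω
  exact Pool.Agent.W815.RGC.asy (Pool.Agent.W815.RGC.diag Pool.Agent.W815.RGC.sqf)
    Pool.Agent.W815.RGC.det _ hω

end Pool.Agent.Results.MP_0575cc_nt.RandomMultiplicative
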